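import Pool.Agent.H53.UK.Targets

/-!
# Row PLU of uk_modules (helper13; copy of row PLM of mwk_modules, helper36)
-/

set_option autoImplicit false

open Finset
open Pool.Agent.H53.MC (Clause Falsified SatBy Line Circuit)
open Pool.Agent.H53.MW (Follows Session DerivesL geL DerivesR cb qp th0 th1)
open Pool.Agent.H15.FLX (BR)
open Pool.Agent.H97.SHL (DT bl)
open Pool.Agent.H53.UK

namespace Pool.Agent.H13.UK

theorem pf_PLU (hSEU : T_SEU) (hHSU : T_HSU) (hLKU : T_LKU) : T_PLU := by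
  intro n k m μ H w s₀ d t q s hH3 hw hn ht hr hs 𝓛 𝓠 E hErr r hBad hReg L hL
  refine hL {L | L ∈ 𝓛 ∧ LfU H (AL r) q (Lᶜ \ E) ∧
    ∀ p ∈ KerU H d s₀ (th1 n w d s₀ s) (Lᶜ \ E), HitU H (AL r) p} ?_
  intro L' hL' hsess
  obtain ⟨S, hS, hDT⟩ := hSEU H t q s ht hs r _ 𝓠 E L' (fun Q hQ => hQ.2.1) hsess
  have hhit : ∀ p ∈ KerU H d s₀ (th1 n w d s₀ s) (L'ᶜ \ E), HitU H (AL r) p := by
    refine hHSU H w s₀ d _ s hH3 hw hn hr (qp 𝓠 t) (𝓛.image fun L => Lᶜ \ E) (AL r) hReg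
      (L'ᶜ \ E) ?_ S hS hDT
    exact Finset.mem_image.2 ⟨L', hL', rfl⟩
  have hlk := hLKU H d s₀ (th1 n w d s₀ s) q {KerU H d s₀ (th1 n w d s₀ s) (L'ᶜ \ E)}
    (L'ᶜ \ E) (AL r) (hBad L' hL') rfl hhit
  rw [hErr L' hL', Finset.sdiff_empty] at hlk
  exact ⟨hL', hlk, hhit⟩

end Pool.Agent.H13.UK
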